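import Mathlib
import Pool.Agent.Helper35.CollDefs
import Pool.Agent.Helper35.T6

set_option autoImplicit false

open Filter

namespace Pool.Agent.Helper35.Old.LowerBound

open Pool.Agent.CollTriples Pool.Agent.Helper35.Coll

/-- For all large `n` there are `n` points in the plane, no four collinear, with at least
`(1/64) n log n / log log n` collinear triples, whose graph has no self-intersecting path of
length three; hence `f n` is at least that large, and `f n` is not `O(n √(log n))`. -/
theorem result :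
    (∀ᶠ n : ℕ in atTop, ∃ P : Finset (ℝ × ℝ), P.card = n ∧ NoFourCollinear P ∧
      ¬ HasSelfIntersectingPath P ∧
      (1 / 64 : ℝ) * (n * Real.log n / Real.log (Real.log n)) ≤ ((collinearTriples P).card : ℝ)) ∧
    (∀ᶠ n : ℕ in atTop,
      (1 / 64 : ℝ) * (n * Real.log n / Real.log (Real.log n)) ≤ (f n : ℝ)) ∧
    ¬ ((fun n : ℕ => (f n : ℝ)) =O[atTop] (fun n : ℕ => (n : ℝ) * Real.sqrt (Real.log n))) := by
  have h2 : ∀ᶠ n : ℕ in atTop,
      (1 / 64 : ℝ) * (n * Real.log n / Real.log (Real.log n)) ≤ (f n : ℝ) := by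
    filter_upwards [nice_asymptotic] with n ⟨T, hT, hle⟩
    have : (T : ℝ) < f n := by exact_mod_cast lt_f_of_nice hT
    linarith
  refine ⟨?_, h2, ?_⟩
  · filter_upwards [nice_asymptotic] with n ⟨T, ⟨P, h1, h2, h3, h4⟩, hle⟩
    refine ⟨P, h1, h2, h3, hle.trans ?_⟩
    exact_mod_cast h4
  · intro hO
    obtain ⟨C, hC⟩ := hO.bound
    have hL : Tendsto (fun n : ℕ => Real.log (n : ℝ)) atTop atTop :=
      Real.tendsto_log_atTop.comp tendsto_natCast_atTop_atTop
    -- for large `L`, `64 (|C| + 1) log L ≤ √L`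
    have e1 : ∀ᶠ L : ℝ in atTop, 64 * (|C| + 1) * Real.log L ≤ Real.sqrt L := by
      have h := (isLittleO_log_rpow_atTop (show (0 : ℝ) < 1 / 2 by norm_num)).def
        (show (0 : ℝ) < 1 / (64 * (|C| + 1)) by positivity)
      filter_upwards [h, eventually_ge_atTop (1 : ℝ)] with L hL1 hL2
      simp only [Real.norm_eq_abs] at hL1
      rw [abs_of_nonneg (Real.log_nonneg hL2), ← Real.sqrt_eq_rpow,
        abs_of_nonneg (Real.sqrt_nonneg L)] at hL1
      have hc : 0 < 64 * (|C| + 1) := by positivity
      calc 64 * (|C| + 1) * Real.log L ≤ 64 * (|C| + 1) * (1 / (64 * (|C| + 1)) * Real.sqrt L) :=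
            mul_le_mul_of_nonneg_left hL1 hc.le
        _ = Real.sqrt L := by field_simp
    have e2 : ∀ᶠ L : ℝ in atTop, 1 ≤ Real.log L := Real.tendsto_log_atTop.eventually_ge_atTop 1
    have hall := (hL.eventually e1).and ((hL.eventually e2).and
      ((hL.eventually (eventually_ge_atTop (2 : ℝ))).and (hC.and (h2.and
      (eventually_gt_atTop (0 : ℕ))))))
    obtain ⟨n, g1, g2, g3, g4, g5, g6⟩ := hall.exists
    set L := Real.log (n : ℝ) with hLdef
    have hn : (0 : ℝ) < n := by exact_mod_cast g6
    have hLpos : 0 < L := by linarith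
    have hlpos : 0 < Real.log L := by linarith
    have hsq : 0 < Real.sqrt L := Real.sqrt_pos.mpr hLpos
    have hss : Real.sqrt L * Real.sqrt L = L := Real.mul_self_sqrt hLpos.le
    simp only [Real.norm_eq_abs] at g4
    rw [abs_of_nonneg (show (0 : ℝ) ≤ (f n : ℝ) by positivity),
      abs_of_nonneg (show (0 : ℝ) ≤ (n : ℝ) * Real.sqrt L by positivity)] at g4
    have g7 : (1 / 64 : ℝ) * (n * L / Real.log L) ≤ C * (n * Real.sqrt L) := g5.trans g4
    have g8 : (|C| + 1) * (n * Real.sqrt L) ≤ (1 / 64 : ℝ) * (n * L / Real.log L) := by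
      have : (1 / 64 : ℝ) * (n * L / Real.log L) = (n * L) / (64 * Real.log L) := by
        field_simp
      rw [this, le_div_iff₀ (by positivity)]
      calc (|C| + 1) * (n * Real.sqrt L) * (64 * Real.log L)
          = n * Real.sqrt L * (64 * (|C| + 1) * Real.log L) := by ring
        _ ≤ n * Real.sqrt L * Real.sqrt L :=
            mul_le_mul_of_nonneg_left g1 (by positivity)
        _ = n * L := by rw [mul_assoc, hss]
    have g9 : C * (n * Real.sqrt L) ≤ |C| * (n * Real.sqrt L) :=
      mul_le_mul_of_nonneg_right (le_abs_self C) (by positivity)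
    have g10 : 0 < n * Real.sqrt L := by positivity
    linarith

end Pool.Agent.Helper35.Old.LowerBound
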